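import Mathlib

set_option autoImplicit false

namespace Pool.Agent.Results.MP_4236ce_al.Disproof

open scoped commutatorElement

/-- The minimal number of generators of a group (`⊤` if it is not finitely generated). -/
noncomputable def minGens (H : Type) [Group H] : ℕ∞ :=
  ⨅ (S : Set H) (_ : Subgroup.closure S = ⊤), S.encard

/-- `δ(A)`: the minimal number of generators of the abelianisation `A/[A,A]`. -/
noncomputable def delta {Γ : Type} [Group Γ] (A : Subgroup Γ) : ℕ∞ :=
  minGens (Abelianization A)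

/-- The subgroup `[A,A]A^p`, where `A^p` is generated by all `p`-th powers. -/
def commPow (p : ℕ) (A : Type) [Group A] : Subgroup A :=
  commutator A ⊔ Subgroup.closure {x | ∃ a : A, x = a ^ p}

lemma normal_of_comm_le {A : Type} [Group A] (K : Subgroup A) (h : commutator A ≤ K) :
    K.Normal := by
  refine ⟨fun n hn g => ?_⟩
  have h1 : ⁅g, n⁆ ∈ K := h (Subgroup.commutator_mem_commutator (Subgroup.mem_top g)
    (Subgroup.mem_top n))
  have h2 : g * n * g⁻¹ = ⁅g, n⁆ * n := by
    rw [commutatorElement_def]; group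
  rw [h2]
  exact K.mul_mem h1 hn

instance (p : ℕ) (A : Type) [Group A] : (commPow p A).Normal :=
  normal_of_comm_le _ le_sup_left

/-- `d_p(A)`: the minimal number of generators of `A/[A,A]A^p`. -/
noncomputable def dmod (p : ℕ) {Γ : Type} [Group Γ] (A : Subgroup Γ) : ℕ∞ :=
  minGens (A ⧸ commPow p A)

/-- The lower normal limit of `f`: the supremum over the finite-index normal subgroups `M` of the
infimum of `f N` over the finite-index normal subgroups `N ≤ M`. -/
noncomputable def lowerNormalLimit (Γ : Type) [Group Γ] (f : Subgroup Γ → ℕ∞) : ℕ∞ :=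
  ⨆ (M : Subgroup Γ) (_ : M.Normal ∧ M.FiniteIndex),
    ⨅ (N : Subgroup Γ) (_ : N.Normal ∧ N.FiniteIndex ∧ N ≤ M), f N

/-- the free group on two generators -/
abbrev F : Type := FreeGroup Bool

section cocycle

variable {G : Type} [Group G] (π : F →* G) {A : Type} [AddCommGroup A]

/-- permutation attached to a generator -/
def gen (u : Bool → G → A) (s : Bool) : Equiv.Perm (G × A) where
  toFun z := (z.1 * (π (FreeGroup.of s))⁻¹, z.2 + u s z.1)
  invFun z := (z.1 * π (FreeGroup.of s), z.2 - u s (z.1 * π (FreeGroup.of s)))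
  left_inv z := by simp
  right_inv z := by simp

/-- the action -/
def rho (u : Bool → G → A) : F →* Equiv.Perm (G × A) := FreeGroup.lift (gen π u)

/-- the cocycle -/
def coc (u : Bool → G → A) (w : F) (x : G) : A := (rho π u w (x, 0)).2

lemma rho_apply (u : Bool → G → A) (w : F) : ∀ (x : G) (t : A),
    rho π u w (x, t) = (x * (π w)⁻¹, t + coc π u w x) := by
  induction w using FreeGroup.induction_on with
  | C1 =>
    intro x t
    simp [coc]
  | of s =>
    intro x t
    simp [coc, rho, gen]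
  | inv_of s ih =>
    intro x t
    have h : ∀ z : G × A, rho π u (FreeGroup.of s)⁻¹ z =
        (z.1 * π (FreeGroup.of s), z.2 - u s (z.1 * π (FreeGroup.of s))) := by
      intro z
      rw [map_inv]
      simp only [rho, FreeGroup.lift_apply_of]
      rfl
    have h2 : coc π u (FreeGroup.of s)⁻¹ x = - u s (x * π (FreeGroup.of s)) := by
      rw [coc, h]
      simp
    rw [h, h2, map_inv, inv_inv, sub_eq_add_neg]
  | mul v w hv hw =>
    intro x t
    have h1 : coc π u (v * w) x = coc π u w x + coc π u v (x * (π w)⁻¹) := by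
      simp only [coc, map_mul, Equiv.Perm.mul_apply]
      rw [hw, hv]
      simp [coc]
    rw [map_mul, Equiv.Perm.mul_apply, hw, hv, h1, map_mul]
    simp [mul_assoc, add_assoc]

lemma coc_mul (u : Bool → G → A) (v w : F) (x : G) :
    coc π u (v * w) x = coc π u w x + coc π u v (x * (π w)⁻¹) := by
  have h : coc π u (v * w) x = (rho π u v (rho π u w (x, 0))).2 := by
    rw [coc, map_mul, Equiv.Perm.mul_apply]
  rw [h, rho_apply, rho_apply, zero_add]

lemma coc_one (u : Bool → G → A) (x : G) : coc π u 1 x = 0 := by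
  simp [coc]

lemma coc_of (u : Bool → G → A) (s : Bool) (x : G) : coc π u (FreeGroup.of s) x = u s x := by
  simp [coc, rho, gen]

lemma coc_inv (u : Bool → G → A) (w : F) (x : G) : coc π u w⁻¹ x = - coc π u w (x * π w) := by
  have h := coc_mul π u w w⁻¹ x
  rw [mul_inv_cancel, coc_one, map_inv, inv_inv] at h
  exact eq_neg_of_add_eq_zero_left h.symm

lemma coc_add (u u' : Bool → G → A) (w : F) : ∀ x : G,
    coc π (u + u') w x = coc π u w x + coc π u' w x := by
  induction w using FreeGroup.induction_on with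
  | C1 => intro x; simp [coc_one]
  | of s => intro x; simp [coc_of]
  | inv_of s ih => intro x; rw [coc_inv, coc_inv, coc_inv, ih]; abel
  | mul v w hv hw => intro x; rw [coc_mul, coc_mul, coc_mul, hv, hw]; abel

lemma coc_smul {k : Type} [Semiring k] [Module k A] (c : k) (u : Bool → G → A) (w : F) : ∀ x : G,
    coc π (c • u) w x = c • coc π u w x := by
  induction w using FreeGroup.induction_on with
  | C1 => intro x; simp [coc_one]
  | of s => intro x; simp [coc_of]
  | inv_of s ih => intro x; rw [coc_inv, coc_inv, ih, smul_neg]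
  | mul v w hv hw => intro x; rw [coc_mul, coc_mul, hv, hw, smul_add]

/-- For `w ^ q` in the kernel the cocycle of `w ^ q` is constant along `x * ⟨w⟩`. -/
lemma coc_pow_shift (u : Bool → G → A) (w : F) (q : ℕ) (hq : π (w ^ q) = 1) (x : G) :
    coc π u (w ^ q) (x * (π w)⁻¹) = coc π u (w ^ q) x := by
  have h1 := coc_mul π u (w ^ q) w x
  have h2 := coc_mul π u w (w ^ q) x
  rw [hq, inv_one, mul_one] at h2
  have h3 : w ^ q * w = w * w ^ q := by rw [← pow_succ, ← pow_succ']
  rw [h3, h2, add_comm] at h1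
  exact (add_left_cancel h1).symm

lemma coc_pow_shift_zpow (u : Bool → G → A) (w : F) (q : ℕ) (hq : π (w ^ q) = 1) (k : ℤ) :
    ∀ x : G, coc π u (w ^ q) (x * (π w) ^ k) = coc π u (w ^ q) x := by
  have h1 : ∀ x : G, coc π u (w ^ q) (x * π w) = coc π u (w ^ q) x := by
    intro x
    have := coc_pow_shift π u w q hq (x * π w)
    rw [mul_inv_cancel_right] at this
    exact this.symm
  induction k using Int.induction_on with
  | zero => intro x; simp
  | succ i ih => intro x; rw [zpow_add_one, ← mul_assoc, h1, ih]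
  | pred i ih => intro x; rw [zpow_sub_one, ← mul_assoc, coc_pow_shift π u w q hq, ih]

lemma coc_coset (u : Bool → G → A) (w : F) (q : ℕ) (hq : π (w ^ q) = 1)
    (h : ∀ y : G ⧸ Subgroup.zpowers (π w), coc π u (w ^ q) (Quotient.out y) = 0) (x : G) :
    coc π u (w ^ q) x = 0 := by
  have h1 := h (QuotientGroup.mk x)
  have h2 : (QuotientGroup.mk (Quotient.out (QuotientGroup.mk x : G ⧸ Subgroup.zpowers (π w))) :
      G ⧸ Subgroup.zpowers (π w)) = QuotientGroup.mk x := Quotient.out_eq' _
  rw [QuotientGroup.eq] at h2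
  obtain ⟨k, hk⟩ := Subgroup.mem_zpowers_iff.1 h2
  set y := Quotient.out (QuotientGroup.mk x : G ⧸ Subgroup.zpowers (π w)) with hy
  have h3 : x = y * (π w) ^ k := by rw [hk]; group
  rw [h3, coc_pow_shift_zpow π u w q hq]
  exact h1

/-- If the cocycle vanishes on the kernel of a surjective `π` then it is a coboundary. -/
lemma coboundary (hπ : Function.Surjective π) (u : Bool → G → A)
    (h' : ∀ r : F, π r = 1 → ∀ x, coc π u r x = 0) :
    ∃ f : G → A, ∀ s x, u s x = f (x * (π (FreeGroup.of s))⁻¹) - f x := by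
  choose g hg using hπ
  have hdep : ∀ a b : F, π a = π b → ∀ x, coc π u a x = coc π u b x := by
    intro a b hab x
    have e : a = b * (b⁻¹ * a) := by group
    have e2 : π (b⁻¹ * a) = 1 := by rw [map_mul, map_inv, hab]; group
    rw [e, coc_mul, h' _ e2, e2, inv_one, mul_one, zero_add]
  refine ⟨fun x => coc π u (g x⁻¹) 1, fun s x => ?_⟩
  have h1 : coc π u (g (x * (π (FreeGroup.of s))⁻¹)⁻¹) 1 =
      coc π u (FreeGroup.of s * g x⁻¹) 1 := by
    apply hdep
    rw [hg, map_mul, hg]
    group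
  have h2 : u s x = coc π u (g (x * (π (FreeGroup.of s))⁻¹)⁻¹) 1 - coc π u (g x⁻¹) 1 := by
    rw [h1, coc_mul, coc_of, hg]
    simp
  exact h2

/-- linearity of the cocycle in the edge weights -/
def cocLin (k : Type) [Field k] (w : F) (x : G) : (Bool → G → k) →ₗ[k] k where
  toFun u := coc π u w x
  map_add' u u' := coc_add π u u' w x
  map_smul' c u := coc_smul π c u w x

lemma exists_cocycle (k : Type) [Field k] [Finite G] (hπ : Function.Surjective π)
    (S : Finset (F × ℕ))
    (hS : ∀ s ∈ S, s.2.Prime ∧ π s.1 ≠ 1 ∧ π (s.1 ^ s.2) = 1)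
    (hsum : ∑ s ∈ S, (1 : ℚ) / s.2 < 1) :
    ∃ u : Bool → G → k, (∀ s ∈ S, ∀ x, coc π u (s.1 ^ s.2) x = 0) ∧
      ∃ r, π r = 1 ∧ ∃ x, coc π u r x ≠ 0 := by
  classical
  by_contra hcon
  push Not at hcon
  haveI : Fintype G := Fintype.ofFinite G
  let T : (Bool → G → k) →ₗ[k] ((Σ s : S, G ⧸ Subgroup.zpowers (π s.1.1)) → k) :=
    LinearMap.pi fun z => cocLin π k (z.1.1.1 ^ z.1.1.2) (Quotient.out z.2)
  let D : (G → k) →ₗ[k] (Bool → G → k) :=
    { toFun := fun f s x => f (x * (π (FreeGroup.of s))⁻¹) - f x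
      map_add' := by
        intro f g
        funext s x
        simp only [Pi.add_apply]
        ring
      map_smul' := by
        intro c f
        funext s x
        simp only [Pi.smul_apply, smul_eq_mul, RingHom.id_apply]
        ring }
  have hker : LinearMap.ker T ≤ LinearMap.range D := by
    intro u hu
    rw [LinearMap.mem_ker] at hu
    have h1 : ∀ s ∈ S, ∀ x, coc π u (s.1 ^ s.2) x = 0 := by
      intro s hs x
      apply coc_coset π u s.1 s.2 (hS s hs).2.2
      intro y
      exact congrFun hu ⟨⟨s, hs⟩, y⟩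
    have h2 := hcon u h1
    obtain ⟨f, hf⟩ := coboundary π hπ u h2
    exact ⟨f, by funext s x; exact (hf s x).symm⟩
  have e1 := LinearMap.finrank_range_add_finrank_ker T
  have e2 : Module.finrank k (Bool → G → k) = 2 * Fintype.card G := by
    rw [Module.finrank_pi_fintype]
    simp
  have e3 : Module.finrank k (LinearMap.range T) ≤
      ∑ s : S, Nat.card (G ⧸ Subgroup.zpowers (π s.1.1)) := by
    refine (Submodule.finrank_le _).trans ?_
    rw [Module.finrank_fintype_fun_eq_card, Fintype.card_sigma]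
    simp [Nat.card_eq_fintype_card]
  have e4 : Module.finrank k (LinearMap.ker T) ≤ Fintype.card G := by
    refine (Submodule.finrank_mono hker).trans ?_
    refine (LinearMap.finrank_range_le D).trans ?_
    rw [Module.finrank_fintype_fun_eq_card]
  have e5 : Fintype.card G ≤ ∑ s : S, Nat.card (G ⧸ Subgroup.zpowers (π s.1.1)) := by
    omega
  have e6 : ∀ s : S, ((Nat.card (G ⧸ Subgroup.zpowers (π s.1.1)) : ℕ) : ℚ) =
      (Fintype.card G : ℚ) * ((1 : ℚ) / s.1.2) := by
    intro s
    obtain ⟨hp, h1, h2⟩ := hS s.1 s.2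
    have ho : orderOf (π s.1.1) = s.1.2 := by
      haveI := Fact.mk hp
      exact orderOf_eq_prime (by rw [← map_pow]; exact h2) h1
    have hc := Subgroup.card_eq_card_quotient_mul_card_subgroup (Subgroup.zpowers (π s.1.1))
    rw [Nat.card_zpowers, ho, Nat.card_eq_fintype_card (α := G)] at hc
    have hpos : (s.1.2 : ℚ) ≠ 0 := by exact_mod_cast hp.ne_zero
    rw [hc]
    push_cast
    field_simp
  have e7 : (Fintype.card G : ℚ) ≤ (Fintype.card G : ℚ) * ∑ s ∈ S, (1 : ℚ) / s.2 := by
    have : ((Fintype.card G : ℕ) : ℚ) ≤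
        ((∑ s : S, Nat.card (G ⧸ Subgroup.zpowers (π s.1.1)) : ℕ) : ℚ) := by exact_mod_cast e5
    refine this.trans ?_
    push_cast
    rw [Finset.sum_congr rfl fun s _ => e6 s, ← Finset.mul_sum,
      Finset.sum_coe_sort S (fun s : F × ℕ => (1 : ℚ) / s.2)]
  have hG : (0 : ℚ) < Fintype.card G := by exact_mod_cast Fintype.card_pos
  nlinarith

end cocycle

/-- One stage of the construction. -/
structure Stage where
  R : Subgroup F
  normal : R.Normal
  fin : R.FiniteIndex
  S : Finset (F × ℕ)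
  hS : ∀ s ∈ S, s.2.Prime ∧ s.1 ∉ R ∧ s.1 ^ s.2 ∈ R
  hsum : ∑ s ∈ S, (1 : ℚ) / s.2 < 1

lemma step (σ : Stage) (L : Subgroup F) (hL : L.Normal) (hLf : L.FiniteIndex) (B : ℕ) :
    ∃ τ : Stage, σ.S ⊆ τ.S ∧ τ.R < σ.R ∧
      (∃ p : ℕ, p.Prime ∧ B < p ∧ ∀ x ∈ σ.R, x ^ p ∈ τ.R) ∧
      (∀ x ∈ σ.R, ∀ y ∈ σ.R, ⁅x, y⁆ ∈ τ.R) ∧
      (σ.R ≤ L ∨ ∃ s ∈ τ.S, s.1 ^ s.2 ∉ L) := by
  classical
  have hn := σ.normal
  have hf := σ.fin
  -- choose the prime
  have hε : 0 < 1 - ∑ s ∈ σ.S, (1 : ℚ) / s.2 := by linarith [σ.hsum]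
  obtain ⟨K, hK⟩ := exists_nat_gt (1 / (1 - ∑ s ∈ σ.S, (1 : ℚ) / s.2))
  obtain ⟨p, hpge, hp⟩ := Nat.exists_infinite_primes (B + L.index + K + 1)
  have := Fact.mk hp
  have hpK : (1 : ℚ) / p < 1 - ∑ s ∈ σ.S, (1 : ℚ) / s.2 := by
    have h1 : (0 : ℚ) < p := by exact_mod_cast hp.pos
    have h2 : (K : ℚ) ≤ p := by exact_mod_cast (by omega : K ≤ p)
    rw [div_lt_iff₀ h1]
    rw [div_lt_iff₀ hε] at hK
    nlinarith
  let π : F →* F ⧸ σ.R := QuotientGroup.mk' σ.R
  have hπ : Function.Surjective π := QuotientGroup.mk'_surjective σ.R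
  have hπ1 : ∀ w : F, π w = 1 ↔ w ∈ σ.R := fun w => QuotientGroup.eq_one_iff w
  obtain ⟨u, hu1, r0, hr0, x0, hx0⟩ := exists_cocycle π (ZMod p) hπ σ.S (by
    intro s hs
    obtain ⟨h1, h2, h3⟩ := σ.hS s hs
    exact ⟨h1, fun h => h2 ((hπ1 _).1 h), (hπ1 _).2 h3⟩) σ.hsum
  set R' : Subgroup F := (rho π u).ker with hR'
  have hmem : ∀ w : F, w ∈ R' ↔ (w ∈ σ.R ∧ ∀ x, coc π u w x = 0) := by
    intro w
    rw [hR', MonoidHom.mem_ker]
    constructor
    · intro h
      have h1 : ∀ x : F ⧸ σ.R, ∀ t : ZMod p, (x * (π w)⁻¹, t + coc π u w x) = (x, t) := by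
        intro x t
        rw [← rho_apply, h]
        rfl
      constructor
      · rw [← hπ1]
        have := congrArg Prod.fst (h1 1 0)
        simpa using this
      · intro x
        have := congrArg Prod.snd (h1 x 0)
        simpa using this
    · rintro ⟨h1, h2⟩
      ext1 ⟨x, t⟩
      rw [rho_apply, (hπ1 w).2 h1, h2]
      simp
  have hr0mem : r0 ∈ σ.R := (hπ1 _).1 hr0
  have hr0not : r0 ∉ R' := fun h => hx0 (((hmem r0).1 h).2 x0)
  have hlt : R' < σ.R := by
    refine lt_of_le_of_ne (fun w hw => ((hmem w).1 hw).1) ?_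
    intro h
    exact hr0not (h ▸ hr0mem)
  have hcomul : ∀ x ∈ σ.R, ∀ y ∈ σ.R, ∀ z, coc π u (x * y) z = coc π u y z + coc π u x z := by
    intro x _ y hy z
    rw [coc_mul, (hπ1 y).2 hy, inv_one, mul_one]
  have hpow : ∀ x ∈ σ.R, ∀ n : ℕ, ∀ z, coc π u (x ^ n) z = n • coc π u x z := by
    intro x hx n z
    induction n with
    | zero => simp [coc_one]
    | succ n ih => rw [pow_succ, hcomul _ (σ.R.pow_mem hx n) _ hx, ih, succ_nsmul, add_comm]
  have hpp : ∀ x ∈ σ.R, x ^ p ∈ R' := by
    intro x hx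
    rw [hmem]
    refine ⟨σ.R.pow_mem hx p, fun z => ?_⟩
    rw [hpow x hx]
    simp
  have hcc : ∀ x ∈ σ.R, ∀ y ∈ σ.R, ⁅x, y⁆ ∈ R' := by
    intro x hx y hy
    rw [hmem]
    have hinv : ∀ a ∈ σ.R, ∀ z, coc π u a⁻¹ z = - coc π u a z := by
      intro a ha z
      rw [coc_inv, (hπ1 a).2 ha, mul_one]
    refine ⟨?_, fun z => ?_⟩
    · rw [commutatorElement_def]
      exact σ.R.mul_mem (σ.R.mul_mem (σ.R.mul_mem hx hy) (σ.R.inv_mem hx)) (σ.R.inv_mem hy)
    · rw [commutatorElement_def,
        hcomul _ (σ.R.mul_mem (σ.R.mul_mem hx hy) (σ.R.inv_mem hx)) _ (σ.R.inv_mem hy),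
        hcomul _ (σ.R.mul_mem hx hy) _ (σ.R.inv_mem hx), hcomul _ hx _ hy, hinv x hx, hinv y hy]
      abel
  have hR'fin : R'.FiniteIndex := by
    have : Finite (Equiv.Perm ((F ⧸ σ.R) × ZMod p)) := inferInstance
    rw [hR']
    exact Subgroup.finiteIndex_ker _
  have hR'n : R'.Normal := by rw [hR']; exact MonoidHom.normal_ker _
  have hold : ∀ s ∈ σ.S, s.2.Prime ∧ s.1 ∉ R' ∧ s.1 ^ s.2 ∈ R' := by
    intro s hs
    obtain ⟨h1, h2, h3⟩ := σ.hS s hs
    refine ⟨h1, fun h => h2 ((hmem _).1 h).1, ?_⟩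
    rw [hmem]
    exact ⟨h3, hu1 s hs⟩
  by_cases hle : σ.R ≤ L
  · exact ⟨⟨R', hR'n, hR'fin, σ.S, hold, σ.hsum⟩, subset_rfl, hlt,
      ⟨p, hp, by omega, hpp⟩, hcc, Or.inl hle⟩
  · -- choose w
    have hw : ∃ w ∈ σ.R, w ∉ L ∧ w ∉ R' := by
      by_contra hcon
      push Not at hcon
      obtain ⟨w0, hw0, hw0L⟩ := SetLike.not_le_iff_exists.1 hle
      have h1 : w0 ∈ R' := hcon w0 hw0 hw0L
      have h2 : r0 ∈ L := by
        by_contra h
        exact hr0not (hcon r0 hr0mem h)
      have h3 : w0 * r0 ∉ L := fun h => hw0L ((L.mul_mem_cancel_right h2).1 h)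
      have h4 : w0 * r0 ∈ R' := hcon _ (σ.R.mul_mem hw0 hr0mem) h3
      exact hr0not ((R'.mul_mem_cancel_left h1).1 h4)
    obtain ⟨w, hw1, hw2, hw3⟩ := hw
    have hwL : w ^ p ∉ L := by
      intro h
      apply hw2
      have h1 : (QuotientGroup.mk w : F ⧸ L) ^ p = 1 := by
        rw [← QuotientGroup.mk_pow]
        exact (QuotientGroup.eq_one_iff _).2 h
      have h2 : (QuotientGroup.mk w : F ⧸ L) ^ L.index = 1 := by
        rw [Subgroup.index, pow_card_eq_one']
      have hcop : Nat.Coprime p L.index := by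
        rw [Nat.Prime.coprime_iff_not_dvd hp]
        intro hd
        have h0 : L.index ≠ 0 := hLf.index_ne_zero
        have := Nat.le_of_dvd (Nat.pos_of_ne_zero h0) hd
        omega
      have h3 : orderOf (QuotientGroup.mk w : F ⧸ L) ∣ 1 := by
        rw [← Nat.Coprime.gcd_eq_one hcop]
        exact Nat.dvd_gcd (orderOf_dvd_of_pow_eq_one h1) (orderOf_dvd_of_pow_eq_one h2)
      have h4 : (QuotientGroup.mk w : F ⧸ L) = 1 := by
        rw [← orderOf_eq_one_iff]
        exact Nat.dvd_one.1 h3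
      exact (QuotientGroup.eq_one_iff _).1 h4
    have hsum' : ∑ s ∈ insert (w, p) σ.S, (1 : ℚ) / s.2 < 1 := by
      by_cases hin : (w, p) ∈ σ.S
      · rw [Finset.insert_eq_of_mem hin]; exact σ.hsum
      · rw [Finset.sum_insert hin]
        simp only
        linarith
    exact ⟨⟨R', hR'n, hR'fin, insert (w, p) σ.S, by
        intro s hs
        rw [Finset.mem_insert] at hs
        rcases hs with rfl | hs
        · exact ⟨hp, hw3, hpp w hw1⟩
        · exact hold s hs, hsum'⟩, Finset.subset_insert _ _, hlt,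
      ⟨p, hp, by omega, hpp⟩, hcc, Or.inr ⟨(w, p), Finset.mem_insert_self _ _, hwL⟩⟩

/-- codes for finite-index normal subgroups of `F` -/
abbrev Code : Type := Σ n : ℕ, (Bool → Equiv.Perm (Fin n))

/-- the normal subgroup of a code -/
def Lof (c : Code) : Subgroup F := (FreeGroup.lift c.2).ker

lemma Lof_normal (c : Code) : (Lof c).Normal := MonoidHom.normal_ker _
lemma Lof_fin (c : Code) : (Lof c).FiniteIndex := by
  unfold Lof
  exact Subgroup.finiteIndex_ker _

lemma exists_code (L : Subgroup F) (hL : L.Normal) (hLf : L.FiniteIndex) : ∃ c, Lof c = L := by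
  classical
  obtain ⟨n, ⟨e⟩⟩ := Finite.exists_equiv_fin (F ⧸ L)
  let f : F →* Equiv.Perm (F ⧸ L) := (MulAction.toPermHom (F ⧸ L) (F ⧸ L)).comp (QuotientGroup.mk' L)
  let g : Equiv.Perm (F ⧸ L) ≃* Equiv.Perm (Fin n) := e.permCongrHom
  refine ⟨⟨n, fun s => g (f (FreeGroup.of s))⟩, ?_⟩
  have h1 : FreeGroup.lift (fun s => g (f (FreeGroup.of s))) = (g.toMonoidHom.comp f) := by
    apply FreeGroup.ext_hom
    intro s
    simp
  unfold Lof
  simp only
  rw [h1]
  ext w
  rw [MonoidHom.mem_ker]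
  constructor
  · intro h
    have h2 : f w = 1 := by
      apply g.injective
      rw [map_one]
      exact h
    have h3 := Equiv.congr_fun h2 1
    have h4 : (QuotientGroup.mk w : F ⧸ L) = 1 := by
      simpa [f] using h3
    exact (QuotientGroup.eq_one_iff _).1 h4
  · intro h
    have h2 : (QuotientGroup.mk' L) w = 1 := (QuotientGroup.eq_one_iff _).2 h
    change g (f w) = 1
    have h3 : f w = MulAction.toPermHom (F ⧸ L) (F ⧸ L) ((QuotientGroup.mk' L) w) := rfl
    rw [h3, h2, map_one, map_one]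

/-- the initial stage -/
def stage0 : Stage where
  R := ⊤
  normal := inferInstance
  fin := inferInstance
  S := ∅
  hS := by simp
  hsum := by simp

/-- the sequence of stages -/
lemma exists_seq : ∃ (R : ℕ → Subgroup F) (W : Set F), (∀ i, (R i).Normal) ∧
    (∀ i, (R i).FiniteIndex) ∧ R 0 = ⊤ ∧ (∀ i, R (i + 1) < R i) ∧ (∀ i, W ⊆ R i) ∧
    (∀ i, ∃ p : ℕ, p.Prime ∧ i < p ∧ ∀ x ∈ R i, x ^ p ∈ R (i + 1)) ∧
    (∀ i, ∀ x ∈ R i, ∀ y ∈ R i, ⁅x, y⁆ ∈ R (i + 1)) ∧
    (∀ L : Subgroup F, L.Normal → L.FiniteIndex → W ⊆ L → ∃ i, R i ≤ L) := by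
  obtain ⟨e, he⟩ := exists_surjective_nat Code
  choose nx h1 h2 h3 h4 h5 using fun (σ : Stage) (c : Code) (B : ℕ) =>
    step σ (Lof c) (Lof_normal c) (Lof_fin c) B
  let T : ℕ → Stage := fun n => Nat.rec stage0 (fun i σ => nx σ (e i) i) n
  have hT : ∀ i, T (i + 1) = nx (T i) (e i) i := fun i => rfl
  have hSmono : ∀ i, (T i).S ⊆ (T (i + 1)).S := fun i => h1 _ _ _
  have hSm : Monotone (fun i => (T i).S) := monotone_nat_of_le_succ hSmono
  have hRanti : StrictAnti (fun i => (T i).R) := strictAnti_nat_of_succ_lt fun i => h2 _ _ _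
  refine ⟨fun i => (T i).R, ⋃ i, {w | ∃ s ∈ (T i).S, w = s.1 ^ s.2}, fun i => (T i).normal,
    fun i => (T i).fin, rfl, fun i => h2 _ _ _, ?_, fun i => h3 _ _ _, fun i => h4 _ _ _, ?_⟩
  · intro i w hw
    rw [Set.mem_iUnion] at hw
    obtain ⟨j, s, hs, rfl⟩ := hw
    rcases le_total j i with h | h
    · exact ((T i).hS s (hSm h hs)).2.2
    · exact hRanti.antitone h ((T j).hS s hs).2.2
  · intro L hL hLf hW
    obtain ⟨c, rfl⟩ := exists_code L hL hLf
    obtain ⟨i, rfl⟩ := he c
    rcases h5 (T i) (e i) i with h | ⟨s, hs, hs'⟩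
    · exact ⟨i, h⟩
    · exact absurd (hW (Set.mem_iUnion.2 ⟨i + 1, s, hs, rfl⟩)) hs'

lemma minGens_zero (H : Type) [Group H] (h : Subsingleton H) : minGens H = 0 := by
  refine le_antisymm ?_ zero_le
  refine (iInf₂_le (∅ : Set H) ?_).trans ?_
  · rw [Subgroup.eq_top_iff']
    intro x
    rw [Subsingleton.elim x 1]
    exact Subgroup.one_mem _
  · simp

lemma one_le_minGens (H : Type) [Group H] (h : ¬ Subsingleton H) : 1 ≤ minGens H := by
  refine le_iInf₂ fun S hS => ?_
  rw [Set.one_le_encard_iff_nonempty]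
  by_contra hcon
  rw [Set.not_nonempty_iff_eq_empty] at hcon
  subst hcon
  rw [Subgroup.closure_empty] at hS
  exact h (Subgroup.subsingleton_iff.1 (subsingleton_of_bot_eq_top hS))

theorem main : ∃ (Γ : Type) (_ : Group Γ), Group.FG Γ ∧
    (∀ p : ℕ, p.Prime → lowerNormalLimit Γ (dmod p) = 0) ∧
    1 ≤ lowerNormalLimit Γ delta := by
  obtain ⟨R, W, hn, hf, h0, hlt, hW, hp, hc, hL⟩ := exists_seq
  have hanti : StrictAnti R := strictAnti_nat_of_succ_lt hlt
  let K : Subgroup F := Subgroup.normalClosure W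
  have hK : ∀ i, K ≤ R i := fun i => by
    have := hn i
    exact Subgroup.normalClosure_le_normal (hW i)
  let q : F →* F ⧸ K := QuotientGroup.mk' K
  have hq : Function.Surjective q := QuotientGroup.mk'_surjective K
  have hkq : q.ker = K := QuotientGroup.ker_mk' K
  have hcm : ∀ i, ((R i).map q).comap q = R i := by
    intro i
    rw [Subgroup.comap_map_eq, hkq, sup_eq_left]
    exact hK i
  have hNn : ∀ i, ((R i).map q).Normal := fun i => (hn i).map q hq
  have hNf : ∀ i, ((R i).map q).FiniteIndex := by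
    intro i
    refine ⟨fun h => (hf i).index_ne_zero ?_⟩
    have := Subgroup.index_map_dvd (R i) hq
    rw [h] at this
    exact Nat.eq_zero_of_zero_dvd this
  have hNanti : Antitone (fun i => (R i).map q) := fun i j hij => Subgroup.map_mono (hanti.antitone hij)
  -- every finite-index normal subgroup contains some term
  have hcof : ∀ M : Subgroup (F ⧸ K), M.Normal → M.FiniteIndex → ∃ i, (R i).map q ≤ M := by
    intro M hM hMf
    obtain ⟨i, hi⟩ := hL (M.comap q) inferInstance
      ⟨by rw [Subgroup.index_comap_of_surjective M hq]; exact hMf.index_ne_zero⟩ (by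
      intro w hw
      have : q w = 1 := by
        rw [← MonoidHom.mem_ker, hkq]
        exact Subgroup.subset_normalClosure hw
      show q w ∈ M
      rw [this]
      exact M.one_mem)
    exact ⟨i, Subgroup.map_le_iff_le_comap.2 hi⟩
  refine ⟨F ⧸ K, inferInstance, inferInstance, ?_, ?_⟩
  · intro p hpp
    rw [lowerNormalLimit]
    refine le_antisymm ?_ zero_le
    refine iSup₂_le fun M ⟨hM, hMf⟩ => ?_
    obtain ⟨i0, hi0⟩ := hcof M hM hMf
    -- choose i ≥ i0, i ≥ p
    set i := max i0 p with hi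
    refine (iInf₂_le ((R i).map q) ⟨hNn i, hNf i, (hNanti (le_max_left i0 p)).trans hi0⟩).trans ?_
    refine (minGens_zero _ ?_).le
    set A := (R i).map q with hA
    have hAf : A.FiniteIndex := hNf i
    have hAfg : Group.FG A := inferInstance
    have hQfg : Group.FG (A ⧸ commPow p A) := inferInstance
    have hcomm : ∀ a b : A ⧸ commPow p A, a * b = b * a := by
      intro a b
      obtain ⟨a, rfl⟩ := QuotientGroup.mk_surjective a
      obtain ⟨b, rfl⟩ := QuotientGroup.mk_surjective b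
      rw [← QuotientGroup.mk_mul, ← QuotientGroup.mk_mul, QuotientGroup.eq]
      have h1 : (a * b)⁻¹ * (b * a) = ⁅b⁻¹, a⁻¹⁆ := by
        rw [commutatorElement_def]; group
      rw [h1]
      exact (le_sup_left : commutator A ≤ commPow p A)
        (Subgroup.commutator_mem_commutator (Subgroup.mem_top _) (Subgroup.mem_top _))
    have hpow : ∀ a : A ⧸ commPow p A, a ^ p = 1 := by
      intro a
      obtain ⟨a, rfl⟩ := QuotientGroup.mk_surjective a
      rw [← QuotientGroup.mk_pow, QuotientGroup.eq_one_iff]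
      exact (le_sup_right : _ ≤ commPow p A) (Subgroup.subset_closure ⟨a, rfl⟩)
    have hfinQ : Finite (A ⧸ commPow p A) := by
      let _ : CommGroup (A ⧸ commPow p A) :=
        { (inferInstance : Group (A ⧸ commPow p A)) with mul_comm := hcomm }
      apply CommGroup.finite_of_fg_isMulTorsion
      intro a
      rw [isOfFinOrder_iff_pow_eq_one]
      exact ⟨p, hpp.pos, hpow a⟩
    have hBf : (commPow p A).FiniteIndex := Subgroup.finiteIndex_of_finite_quotient
    let B : Subgroup (F ⧸ K) := (commPow p A).map A.subtype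
    have hBf' : B.FiniteIndex := by
      refine ⟨?_⟩
      rw [Subgroup.index_map_subtype]
      exact mul_ne_zero hBf.index_ne_zero hAf.index_ne_zero
    obtain ⟨j, hj⟩ := hcof B.normalCore inferInstance inferInstance
    have hjB : (R j).map q ≤ B := hj.trans (Subgroup.normalCore_le B)
    have key : ∀ d k, k + d = max i j → i ≤ k → ∀ x : A, (x : F ⧸ K) ∈ (R k).map q →
        (QuotientGroup.mk x : A ⧸ commPow p A) = 1 := by
      intro d
      induction d with
      | zero =>
        intro k hk hik x hx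
        have h1 : (x : F ⧸ K) ∈ B := hjB (hNanti (by omega : j ≤ k) hx)
        obtain ⟨y, hy, hyx⟩ := h1
        have : y = x := Subtype.ext hyx
        rw [QuotientGroup.eq_one_iff, ← this]
        exact hy
      | succ d ih =>
        intro k hk hik x hx
        obtain ⟨r, hr, hrx⟩ := hx
        obtain ⟨pk, hpk, hkpk, hpkx⟩ := hp k
        have h1 : ((x ^ pk : A) : F ⧸ K) ∈ (R (k + 1)).map q := by
          refine ⟨r ^ pk, hpkx r hr, ?_⟩
          rw [map_pow, hrx]
          rfl
        have h2 := ih (k + 1) (by omega) (by omega) (x ^ pk) h1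
        rw [QuotientGroup.mk_pow] at h2
        have h3 := hpow (QuotientGroup.mk x)
        have hcop : Nat.Coprime pk p := by
          rw [Nat.coprime_primes hpk hpp]
          omega
        have h4 : orderOf (QuotientGroup.mk x : A ⧸ commPow p A) ∣ 1 := by
          rw [← Nat.Coprime.gcd_eq_one hcop]
          exact Nat.dvd_gcd (orderOf_dvd_of_pow_eq_one h2) (orderOf_dvd_of_pow_eq_one h3)
        rw [← orderOf_eq_one_iff]
        exact Nat.dvd_one.1 h4
    refine ⟨fun a b => ?_⟩
    have hall : ∀ a : A ⧸ commPow p A, a = 1 := by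
      intro a
      obtain ⟨a, rfl⟩ := QuotientGroup.mk_surjective a
      exact key (max i j - i) i (by omega) le_rfl a a.2
    rw [hall a, hall b]
  · refine le_trans ?_ (le_iSup₂ (f := fun (M : Subgroup (F ⧸ K)) (_ : M.Normal ∧ M.FiniteIndex) =>
      ⨅ (N : Subgroup (F ⧸ K)) (_ : N.Normal ∧ N.FiniteIndex ∧ N ≤ M), delta N) ⊤
      ⟨inferInstance, inferInstance⟩)
    refine le_iInf₂ fun N ⟨hN, hNfi, _⟩ => ?_
    apply one_le_minGens
    intro hsub
    have hperf : commutator N = ⊤ := by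
      rw [Subgroup.eq_top_iff']
      intro x
      have : (Abelianization.of x : Abelianization N) = 1 := Subsingleton.elim _ _
      exact (QuotientGroup.eq_one_iff x).1 this
    have hNN : N = ⁅N, N⁆ := by
      have := Subgroup.map_subtype_commutator N
      rw [hperf, ← MonoidHom.range_eq_map, Subgroup.range_subtype] at this
      exact this
    have hle : ∀ i, N ≤ (R i).map q := by
      intro i
      induction i with
      | zero =>
        rw [h0, ← MonoidHom.range_eq_map, MonoidHom.range_eq_top.2 hq]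
        exact le_top
      | succ i ih =>
        rw [hNN]
        refine (Subgroup.commutator_mono ih ih).trans ?_
        rw [← Subgroup.map_commutator]
        apply Subgroup.map_mono
        rw [Subgroup.commutator_le]
        exact hc i
    obtain ⟨j, hj⟩ := hcof N hN hNfi
    have h1 : (R j).map q ≤ (R (j + 1)).map q := hj.trans (hle (j + 1))
    have h2 := Subgroup.comap_mono (f := q) h1
    rw [hcm, hcm] at h2
    exact absurd h2 (not_le_of_gt (hlt j))

/-- There is a finitely generated group `Γ` such that the lower normal limit of `d_p` is `0` for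
every prime `p`, while that of `δ` is at least `1`; so the two sides of Q1 differ. -/
theorem result : ∃ (Γ : Type) (_ : Group Γ), Group.FG Γ ∧
    (∀ p : ℕ, p.Prime → lowerNormalLimit Γ (dmod p) = 0) ∧
    1 ≤ lowerNormalLimit Γ delta ∧
    (⨆ (p : ℕ) (_ : p.Prime), lowerNormalLimit Γ (dmod p)) ≠ lowerNormalLimit Γ delta := by
  obtain ⟨Γ, hΓ, h1, h2, h3⟩ := main
  refine ⟨Γ, hΓ, h1, h2, h3, ?_⟩
  have h4 : (⨆ (p : ℕ) (_ : p.Prime), lowerNormalLimit Γ (dmod p)) = 0 := by
    refine le_antisymm (iSup₂_le fun p hp => (h2 p hp).le) zero_le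
  rw [h4]
  intro h
  rw [← h] at h3
  simp at h3

end Pool.Agent.Results.MP_4236ce_al.Disproof
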